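import Pool.Agent.TH869.LPD.All

/-!
# Words in polynomial multiples, all bases at once, for numbers with an irrationality measure
-/

set_option autoImplicit false

namespace Pool.Agent.U161.PM

open Polynomial Pool.Agent.W226.MP Pool.Agent.TH869.LPD Finset

/-- a uniform measure of irrationality -/
def HasMeas (x κ c0 : ℝ) : Prop := ∀ q : ℕ, 1 ≤ q → ∀ p : ℤ, c0 ≤ (q : ℝ) ^ κ * |q * x - p|

/-- all bases at once; the constants are those of `poly_words` -/
theorem all_bases (c K : ℝ) (hc : 0 < c) (hK : 1 ≤ K) (N B k : ℕ) (hN : 1 ≤ N) (hB : 2 ≤ B)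
    (hk : 1 ≤ k) (y : ℕ → ℝ)
    (h3 : ∀ b : ℕ, 2 ≤ b → ({l : ℕ | l < N ∧ ∃ w : Fin k → Fin b,
      {p : ℕ | OccursAt b k w (y l) p}.Finite}.ncard : ℝ)
        ≤ K * (b:ℝ)^k * N * ((b:ℝ)/N)^(c / (2 * k * (b:ℝ)^k * Real.log b))) :
    ({l : ℕ | l < N ∧ ∃ b : ℕ, 2 ≤ b ∧ b ≤ B ∧ ∃ w : Fin k → Fin b,
        {p : ℕ | OccursAt b k w (y l) p}.Finite}.ncard : ℝ)
        ≤ K * (B : ℝ) ^ (k + 1) * N * ((B : ℝ) / N) ^ (c / (2 * k * (B : ℝ) ^ k * Real.log B)) := by
  classical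
  have hNr : (1:ℝ) ≤ N := by exact_mod_cast hN
  have hBr : (2:ℝ) ≤ B := by exact_mod_cast hB
  have hkr : (1:ℝ) ≤ k := by exact_mod_cast hk
  have hlB : 0 < Real.log B := Real.log_pos (by linarith)
  set E : ℝ := c / (2 * k * (B:ℝ)^k * Real.log B) with hE
  have hE0 : 0 < E := by positivity
  have hBk : (1:ℝ) ≤ (B:ℝ)^(k+1) := one_le_pow₀ (by linarith)
  set T : Finset ℕ := (range N).filter (fun l : ℕ => ∃ b : ℕ, 2 ≤ b ∧ b ≤ B ∧
    ∃ w : Fin k → Fin b, {p : ℕ | OccursAt b k w (y l) p}.Finite) with hT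
  have e1 : {l : ℕ | l < N ∧ ∃ b : ℕ, 2 ≤ b ∧ b ≤ B ∧ ∃ w : Fin k → Fin b,
      {p : ℕ | OccursAt b k w (y l) p}.Finite} = ((T : Finset ℕ) : Set ℕ) := by
    ext l; simp [hT]
  rw [e1, Set.ncard_coe_finset]
  rcases lt_or_ge (N:ℝ) B with hNB | hNB
  · have h1 : (T.card : ℝ) ≤ N := by
      have : T.card ≤ (range N).card := card_le_card (filter_subset _ _)
      rw [card_range] at this
      exact_mod_cast this
    have h2 : 1 ≤ ((B:ℝ)/N)^E := by
      apply Real.one_le_rpow _ hE0.le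
      rw [le_div_iff₀ (by linarith)]; linarith
    calc (T.card : ℝ) ≤ 1 * 1 * N * 1 := by linarith
      _ ≤ K * (B:ℝ)^(k+1) * N * ((B:ℝ)/N)^E := by gcongr
  · let Tb : ℕ → Finset ℕ := fun b => (range N).filter (fun l : ℕ =>
      ∃ w : Fin k → Fin b, {p : ℕ | OccursAt b k w (y l) p}.Finite)
    have hTb : ∀ b ∈ Icc 2 B, ((Tb b).card : ℝ) ≤ K * (B:ℝ)^k * N * ((B:ℝ)/N)^E := by
      intro b hb
      rw [mem_Icc] at hb
      have h3 := h3 b hb.1
      have e2 : {l : ℕ | l < N ∧ ∃ w : Fin k → Fin b,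
          {p : ℕ | OccursAt b k w (y l) p}.Finite} = ((Tb b : Finset ℕ) : Set ℕ) := by
        ext l; simp [Tb]
      rw [e2, Set.ncard_coe_finset] at h3
      refine h3.trans ?_
      have hbr : (2:ℝ) ≤ b := by exact_mod_cast hb.1
      have hbB : (b:ℝ) ≤ B := by exact_mod_cast hb.2
      have hlb : 0 < Real.log b := Real.log_pos (by linarith)
      have hlbB : Real.log b ≤ Real.log B := Real.log_le_log (by linarith) hbB
      have h4 : ((b:ℝ)/N)^(c / (2 * k * (b:ℝ)^k * Real.log b)) ≤ ((B:ℝ)/N)^E := by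
        calc ((b:ℝ)/N)^(c / (2 * k * (b:ℝ)^k * Real.log b)) ≤ ((b:ℝ)/N)^E := by
              apply Real.rpow_le_rpow_of_exponent_ge (by positivity)
              · rw [div_le_one (by linarith)]; linarith
              · rw [hE]
                apply div_le_div_of_nonneg_left hc.le (by positivity)
                gcongr
          _ ≤ ((B:ℝ)/N)^E := by
              apply Real.rpow_le_rpow (by positivity) _ hE0.le
              gcongr
      gcongr
    have hsub : T ⊆ (Icc 2 B).biUnion Tb := by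
      intro l hl
      rw [hT, mem_filter] at hl
      obtain ⟨hl1, b, hb1, hb2, hw⟩ := hl
      rw [mem_biUnion]
      exact ⟨b, mem_Icc.2 ⟨hb1, hb2⟩, mem_filter.2 ⟨hl1, hw⟩⟩
    have h5 : T.card ≤ ∑ b ∈ Icc 2 B, (Tb b).card := (card_le_card hsub).trans card_biUnion_le
    have h6 : (T.card : ℝ) ≤ ∑ b ∈ Icc 2 B, ((Tb b).card : ℝ) := by exact_mod_cast h5
    refine h6.trans ((sum_le_sum hTb).trans ?_)
    rw [sum_const, nsmul_eq_mul, Nat.card_Icc]
    have h7 : ((B + 1 - 2 : ℕ) : ℝ) ≤ B := by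
      have : B + 1 - 2 ≤ B := by omega
      exact_mod_cast this
    calc ((B + 1 - 2 : ℕ) : ℝ) * (K * (B:ℝ)^k * N * ((B:ℝ)/N)^E)
        ≤ B * (K * (B:ℝ)^k * N * ((B:ℝ)/N)^E) := by gcongr
      _ = _ := by rw [pow_succ]; ring

end Pool.Agent.U161.PM
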