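import Pool.Agent.U161.PM.PiM
import Pool.Agent.Y934.Multi

/-!
# Linear multiples: the number of occurrences grows like `log M log n` for infinitely many `n`
-/

set_option autoImplicit false

namespace Pool.Agent.U161.PM

open Pool.Agent.W226.MP Finset Filter

open Classical in
theorem lin (x κ c0 : ℝ) (hx : Irrational x) (hκ : 0 < κ) (hc0 : 0 < c0) (hm : HasMeas x κ c0)
    (b k : ℕ) (hb : 2 ≤ b) (hk : 1 ≤ k) (ε : ℝ) (hε : 0 < ε) (hε1 : ε < 1) :
    ∃ c C : ℝ, 0 < c ∧ 0 < C ∧ ∀ (y : ℝ) (M : ℕ), 2 ≤ M →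
      ({m : ℕ | m < M ∧ ¬ ∃ᶠ n : ℕ in atTop, ∀ w : Fin k → Fin b,
        (1 - ε) * (Real.log M * Real.log n / ((b : ℝ) ^ k * Real.log b * Real.log (1 + κ))) ≤
          (occ b k w (y + m * x) 0 n : ℝ)}.ncard : ℝ) ≤ C * (M : ℝ) ^ (1 - c) := by
  obtain ⟨c, C, hc, hC, h⟩ := Pool.Agent.Y934.multi (d := 0) (fun _ => x) κ c0 (fun _ => hx) hκ hc0
    (fun q hq p => ⟨0, hm q hq (p 0)⟩) b k hb hk (ε / 2) (by linarith) (by linarith)
  refine ⟨c, C, hc, hC, fun y M hM => ?_⟩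
  have hM2 : (2 : ℝ) ≤ M := by exact_mod_cast hM
  have hlM : 0 < Real.log M := Real.log_pos (by linarith)
  have hbR : (2 : ℝ) ≤ b := by exact_mod_cast hb
  have hlb : 0 < Real.log b := Real.log_pos (by linarith)
  have hbk : 0 < (b : ℝ) ^ k := by positivity
  have hlκ : 0 < Real.log (1 + κ) := Real.log_pos (by linarith)
  set T : Finset ℕ := (range M).filter (fun m : ℕ => ¬ ∃ᶠ n : ℕ in atTop, ∀ w : Fin k → Fin b,
        (1 - ε) * (Real.log M * Real.log n / ((b : ℝ) ^ k * Real.log b * Real.log (1 + κ))) ≤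
          (occ b k w (y + m * x) 0 n : ℝ)) with hT
  have e1 : {m : ℕ | m < M ∧ ¬ ∃ᶠ n : ℕ in atTop, ∀ w : Fin k → Fin b,
        (1 - ε) * (Real.log M * Real.log n / ((b : ℝ) ^ k * Real.log b * Real.log (1 + κ))) ≤
          (occ b k w (y + m * x) 0 n : ℝ)} = ((T : Finset ℕ) : Set ℕ) := by
    ext m; simp [hT]
  rw [e1, Set.ncard_coe_finset]
  have h1 : ∀ m ∈ T, ∃ n0 : ℕ, ∀ n : ℕ, n0 ≤ n → ∃ w : Fin k → Fin b,
      (occ b k w (y + m * x) 0 n : ℝ) <
      (1 - ε) * (Real.log M * Real.log n / ((b : ℝ) ^ k * Real.log b * Real.log (1 + κ))) := by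
    intro m hm'
    rw [hT, mem_filter, Filter.not_frequently, Filter.eventually_atTop] at hm'
    obtain ⟨_, n0, h0⟩ := hm'
    refine ⟨n0, fun n hn => ?_⟩
    have := h0 n hn
    push Not at this
    exact this
  choose! n0 hn0 using h1
  have h2 : ∀ᶠ n : ℕ in atTop, (1 - ε / 2) * Real.log (C * Real.log M) ≤
      (ε / 2) * Real.log (n : ℝ) := by
    have : Tendsto (fun n : ℕ => (ε / 2) * Real.log (n : ℝ)) atTop atTop :=
      (Real.tendsto_log_atTop.comp tendsto_natCast_atTop_atTop).const_mul_atTop (by linarith)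
    exact this.eventually_ge_atTop _
  obtain ⟨n1, h3, h4, h5⟩ := (h2.and ((eventually_ge_atTop (T.sup n0)).and
    (eventually_ge_atTop 1))).exists
  have hn1 : (1 : ℝ) ≤ n1 := by exact_mod_cast h5
  have h6 := h y M n1 hM
  have e0 : (((0 : ℕ) : ℝ) + 1 - c) = 1 - c := by push_cast; ring
  rw [e0] at h6
  refine le_trans (Nat.cast_le.2 ?_) h6
  have hinj : Function.Injective (fun (a : Fin (0 + 1) → Fin M) => ((a 0 : Fin M) : ℕ)) := by
    intro a a' haa
    funext j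
    have hj : j = 0 := by
      apply Fin.ext
      have := j.2
      simp only [Fin.val_zero]
      omega
    subst hj
    exact Fin.ext haa
  rw [← Finset.card_image_of_injective (f := fun (a : Fin (0 + 1) → Fin M) =>
    ((a 0 : Fin M) : ℕ)) _ hinj]
  refine card_le_card fun m hmT => ?_
  have hmT' := hmT
  rw [hT, mem_filter, mem_range] at hmT'
  rw [mem_image]
  refine ⟨fun _ => ⟨m, hmT'.1⟩, ?_, rfl⟩
  rw [mem_filter]
  refine ⟨mem_univ _, ?_⟩
  obtain ⟨w, hw⟩ := hn0 m hmT n1 ((Finset.le_sup (f := n0) hmT).trans h4)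
  refine ⟨w, ?_⟩
  have e2 : (y + ∑ l : Fin (0 + 1), ((((fun _ => ⟨m, hmT'.1⟩ : Fin (0 + 1) → Fin M) l : Fin M) : ℕ) : ℝ) * x)
      = y + m * x := by
    simp
  rw [e2]
  refine lt_of_lt_of_le hw ?_
  rw [Real.log_div (by positivity) (by positivity)]
  have h7 : (1 - ε) * Real.log n1 ≤ (1 - ε / 2) * (Real.log n1 - Real.log (C * Real.log M)) := by
    nlinarith
  calc (1 - ε) * (Real.log M * Real.log n1 / ((b : ℝ) ^ k * Real.log b * Real.log (1 + κ)))
      = ((1 - ε) * Real.log n1) * (Real.log M / ((b : ℝ) ^ k * Real.log b * Real.log (1 + κ))) := by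
        ring
    _ ≤ ((1 - ε / 2) * (Real.log n1 - Real.log (C * Real.log M))) *
        (Real.log M / ((b : ℝ) ^ k * Real.log b * Real.log (1 + κ))) := by
        gcongr
    _ = _ := by field_simp

end Pool.Agent.U161.PM
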