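import Pool.Agent.U161.PM.Gen
import Pool.Agent.R473.EC.Pi
import Pool.Agent.R473.EC.AlgMeas
import Pool.Agent.H326R2.Pi.Top

/-!
# Irrationality measures of `π / v` and of the irrational numbers algebraic over `ℚ(π)`
-/

set_option autoImplicit false

namespace Pool.Agent.U161.PM

open Finset

lemma small_q (x : ℝ) (hx : Irrational x) (q0 : ℕ) : ∃ c : ℝ, 0 < c ∧
    ∀ q : ℕ, 1 ≤ q → q < q0 → ∀ p : ℤ, c ≤ |q * x - p| := by
  induction q0 with
  | zero => exact ⟨1, one_pos, fun q _ h => absurd h (by omega)⟩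
  | succ n ih =>
    obtain ⟨c, hc, h⟩ := ih
    rcases Nat.eq_zero_or_pos n with rfl | hn
    · exact ⟨1, one_pos, fun q h1 h2 => absurd h2 (by omega)⟩
    have hne : (n : ℝ) * x - round ((n : ℝ) * x) ≠ 0 := by
      intro h0
      apply hx
      refine ⟨(round ((n : ℝ) * x) : ℚ) / n, ?_⟩
      have hn' : (n : ℝ) ≠ 0 := by exact_mod_cast (by omega : n ≠ 0)
      push_cast
      rw [div_eq_iff hn']
      linarith
    have hpos : 0 < |(n : ℝ) * x - round ((n : ℝ) * x)| := abs_pos.2 hne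
    refine ⟨min c |(n : ℝ) * x - round ((n : ℝ) * x)|, lt_min hc hpos, fun q h1 h2 p => ?_⟩
    rcases Nat.lt_succ_iff_lt_or_eq.1 h2 with h3 | rfl
    · exact (min_le_left _ _).trans (h q h1 h3 p)
    · exact (min_le_right _ _).trans (round_le _ p)

theorem pi_meas : ∃ c0 : ℝ, 0 < c0 ∧ HasMeas Real.pi 5.05 c0 := by
  obtain ⟨q0, h⟩ := Pool.Agent.H326R2.Pi.main
  obtain ⟨c, hc, h2⟩ := small_q Real.pi irrational_pi q0
  refine ⟨min 1 c, lt_min one_pos hc, fun q hq p => ?_⟩
  have hq1 : (1 : ℝ) ≤ q := by exact_mod_cast hq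
  have hq0 : (0 : ℝ) < q := by linarith
  rcases lt_or_ge q q0 with h3 | h3
  · calc min 1 c ≤ c := min_le_right _ _
      _ ≤ |q * Real.pi - p| := h2 q hq h3 p
      _ ≤ (q : ℝ) ^ (5.05 : ℝ) * |q * Real.pi - p| := by
        have : 1 ≤ (q : ℝ) ^ (5.05 : ℝ) := Real.one_le_rpow hq1 (by norm_num)
        nlinarith [abs_nonneg ((q : ℝ) * Real.pi - p)]
  · refine (min_le_left _ _).trans ?_
    have h4 := h q h3 p
    have e1 : |(q : ℝ) * Real.pi - p| = q * |Real.pi - p / q| := by
      rw [← abs_of_pos hq0, ← abs_mul, abs_of_pos hq0]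
      congr 1
      field_simp
    rw [e1, ← mul_assoc, ← Real.rpow_add_one hq0.ne']
    calc (1 : ℝ) = (q : ℝ) ^ ((5.05 : ℝ) + 1) * (q : ℝ) ^ (-(6.05 : ℝ)) := by
          rw [← Real.rpow_add hq0]; norm_num
      _ ≤ _ := by gcongr

theorem pi_div_meas (v : ℕ) (hv : 1 ≤ v) : ∃ c0 : ℝ, 0 < c0 ∧ HasMeas (Real.pi / v) 5.05 c0 := by
  obtain ⟨c0, hc0, h⟩ := pi_meas
  have hv0 : (0 : ℝ) < v := by exact_mod_cast hv
  refine ⟨c0 / v, by positivity, fun q hq p => ?_⟩
  have h1 := h q hq (p * v)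
  rw [div_le_iff₀ hv0]
  have e1 : (q : ℝ) * Real.pi - ((p * v : ℤ) : ℝ) = v * (q * (Real.pi / v) - p) := by
    push_cast; field_simp
  rw [e1, abs_mul, abs_of_pos hv0] at h1
  linarith

theorem alg_pi_meas (x : ℝ) (hirr : Irrational x)
    (halg : IsAlgebraic (IntermediateField.adjoin ℚ ({Real.pi} : Set ℝ)) x) :
    ∃ κ c0 : ℝ, 0 < κ ∧ 0 < c0 ∧ HasMeas x κ c0 := by
  obtain ⟨w, c, hw, hc, h⟩ := Pool.Agent.R473.EC.meas_alg Real.pi Pool.Agent.R473.EC.measR_pi
    (m := 1) (![1, x]) (by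
      intro j
      fin_cases j
      · exact isAlgebraic_one
      · exact halg) (by
      rw [LinearIndependent.pair_iff]
      intro s t hst
      rw [Rat.smul_def, Rat.smul_def, mul_one] at hst
      have ht : t = 0 := by
        by_contra ht
        apply hirr
        refine ⟨-s / t, ?_⟩
        have : (t : ℝ) ≠ 0 := by exact_mod_cast ht
        push_cast
        rw [div_eq_iff this]
        linarith
      subst ht
      refine ⟨?_, rfl⟩
      have : (s : ℝ) = 0 := by simpa using hst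
      exact_mod_cast this)
  set Y : ℝ := |x| + 2 with hY
  have hY0 : (0 : ℝ) < Y := by positivity
  refine ⟨w + 1, min 1 (c / Y ^ w), by linarith, lt_min one_pos (by positivity), fun q hq p => ?_⟩
  have hq1 : (1 : ℝ) ≤ q := by exact_mod_cast hq
  have hq0 : (0 : ℝ) < q := by linarith
  have hqw : (1 : ℝ) ≤ (q : ℝ) ^ (w + 1) := Real.one_le_rpow hq1 (by linarith)
  rcases le_or_gt |(p : ℝ)| (Y * q) with hp | hp
  · have h1 := h (![-p, (q : ℤ)]) (by
      intro h0
      have := congrFun h0 1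
      simp at this
      omega) (Y * q) (by
        have : (1 : ℝ) ≤ Y := by
          have := abs_nonneg x
          linarith
        nlinarith) (by
        intro j
        fin_cases j
        · simpa using hp
        · have : (1 : ℝ) ≤ Y := by
            have := abs_nonneg x
            linarith
          have h2 : (q : ℝ) ≤ Y * q := by nlinarith
          simpa using h2)
    have e1 : ∑ j : Fin (1 + 1), (((![-p, (q : ℤ)] : Fin (1 + 1) → ℤ) j : ℤ) : ℝ) *
        (![1, x] : Fin (1 + 1) → ℝ) j = q * x - p := by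
      rw [Fin.sum_univ_two]
      simp
      ring
    rw [e1, Real.mul_rpow hY0.le hq0.le] at h1
    refine (min_le_right _ _).trans ?_
    rw [div_le_iff₀ (by positivity)]
    have h2 : (q : ℝ) ^ w ≤ (q : ℝ) ^ (w + 1) := Real.rpow_le_rpow_of_exponent_le hq1 (by linarith)
    calc c ≤ Y ^ w * (q : ℝ) ^ w * |q * x - p| := h1
      _ ≤ Y ^ w * (q : ℝ) ^ (w + 1) * |q * x - p| := by gcongr
      _ = _ := by ring
  · refine (min_le_left _ _).trans ?_
    have h3 : 1 ≤ |(q : ℝ) * x - p| := by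
      have h4 : |(p : ℝ)| - |(q : ℝ) * x| ≤ |(q : ℝ) * x - p| := by
        rw [abs_sub_comm]
        exact abs_sub_abs_le_abs_sub _ _
      rw [abs_mul, abs_of_pos hq0] at h4
      rw [hY] at hp
      nlinarith
    nlinarith [abs_nonneg ((q : ℝ) * x - p)]

end Pool.Agent.U161.PM
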